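import Pool.Agent.Helper23.XT.Defs

/-! Project XT, module Hens: overrings of an extremal valuation ring are henselian. -/

namespace Pool.Agent.Helper86.XT

open Pool.Agent.Helper23.XT Polynomial

/-- elements of the maximal ideal of the overring have value less than one for the smaller
valuation ring -/
theorem lt_one_of_mem {F : Type*} [Field F] {O B : ValuationSubring F} (hOB : O ≤ B) {x : B}
    (hx : x ∈ IsLocalRing.maximalIdeal B) : O.valuation (x : F) < 1 := by
  rcases eq_or_ne (x : F) 0 with h | h
  · rw [h, map_zero]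
    exact zero_lt_one
  · have h1 : (x : F)⁻¹ ∉ O := by
      intro h2
      have h3 : (x : F)⁻¹ ∈ B := hOB h2
      have h4 : IsUnit x := by
        refine IsUnit.of_mul_eq_one (⟨(x : F)⁻¹, h3⟩ : B) ?_
        apply Subtype.ext
        change (x : F) * (x : F)⁻¹ = 1
        exact mul_inv_cancel₀ h
      exact ((IsLocalRing.mem_maximalIdeal x).1 hx) h4
    rw [← O.valuation_le_one_iff, not_le, map_inv₀] at h1
    by_contra h2
    have h5 : 1 ≤ O.valuation (x : F) := not_lt.1 h2
    exact absurd (inv_le_one_of_one_le₀ h5) (not_le.2 h1)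

/-- Every overring of an extremal valuation ring is henselian. -/
theorem henselian_of_ext1 {F : Type*} [Field F] {O B : ValuationSubring F} (hOB : O ≤ B)
    (hO : Ext1 O) : HenselianLocalRing B := by
  refine { (inferInstance : IsLocalRing B) with is_henselian := fun h _ a₀ h0 h1 => ?_ }
  obtain ⟨u, hu⟩ := h1
  -- Taylor expansion at `a₀`
  obtain ⟨q, hq⟩ : ∃ q : Polynomial B, taylor a₀ h =
      C (h.eval a₀) + C (h.derivative.eval a₀) * X + X ^ 2 * q := by
    refine ⟨(taylor a₀ h).divX.divX, ?_⟩
    have e1 := (taylor a₀ h).divX_mul_X_add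
    have e2 := (taylor a₀ h).divX.divX_mul_X_add
    have e3 : (taylor a₀ h).divX.coeff 0 = h.derivative.eval a₀ := by
      rw [coeff_divX]
      exact taylor_coeff_one a₀ h
    have e4 : (taylor a₀ h).coeff 0 = h.eval a₀ := taylor_coeff_zero a₀ h
    rw [e3] at e2
    rw [e4] at e1
    calc taylor a₀ h = (taylor a₀ h).divX * X + C (h.eval a₀) := e1.symm
      _ = ((taylor a₀ h).divX.divX * X + C (h.derivative.eval a₀)) * X + C (h.eval a₀) := by
        rw [e2]
      _ = _ := by ring
  have hev : ∀ z : B, h.eval (a₀ + z) =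
      h.eval a₀ + h.derivative.eval a₀ * z + z ^ 2 * q.eval z := by
    intro z
    have := congrArg (fun P => P.eval z) hq
    simp only [taylor_eval, eval_add, eval_mul, eval_C, eval_X, eval_pow] at this
    rw [← this, add_comm]
  set e : B := h.eval a₀ * (↑u⁻¹ : B) with he
  have hue : h.derivative.eval a₀ * e = h.eval a₀ := by
    rw [he, ← hu, mul_comm, mul_assoc, Units.inv_mul, mul_one]
  have hem : e ∈ IsLocalRing.maximalIdeal B := Ideal.mul_mem_right _ _ h0
  set m : B := (↑u⁻¹ : B) * e with hm
  have hmm : m ∈ IsLocalRing.maximalIdeal B := Ideal.mul_mem_left _ _ hem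
  -- `e² = h(a₀) m`
  have hem2 : e ^ 2 = h.eval a₀ * m := by
    rw [hm, ← mul_assoc, ← he, sq]
  -- the rescaled polynomial
  set s : Polynomial B := X ^ 2 * q.comp (C e * X) with hs
  set G : Polynomial B := 1 + X + C m * s with hG
  have hGe : ∀ z : B, G.eval z = 1 + z + m * s.eval z := by
    intro z
    simp [hG]
  have hGh : ∀ z : B, h.eval (a₀ + e * z) = h.eval a₀ * G.eval z := by
    intro z
    rw [hev, hGe]
    have : s.eval z = z ^ 2 * q.eval (e * z) := by
      simp [hs]
    rw [this, ← mul_assoc (h.derivative.eval a₀), hue, mul_pow, hem2]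
    ring
  obtain ⟨y, hy, hmin⟩ := hO (G.map B.subtype)
  have hcast : ∀ z : B, (G.map B.subtype).eval (z : F) = ((G.eval z : B) : F) := by
    intro z
    have := Polynomial.eval_map_apply (p := G) B.subtype z
    exact this
  set y' : B := ⟨y, hOB hy⟩ with hy'
  set w : B := G.eval y' with hw
  -- `w = G(y)` lies in `O`
  have hmO : ∀ b : B, O.valuation ((m * b : B) : F) < 1 := fun b =>
    lt_one_of_mem hOB (Ideal.mul_mem_right _ _ hmm)
  have hwO : (w : F) ∈ O := by
    have h3 : (w : F) = 1 + y + ((m * s.eval y' : B) : F) := by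
      rw [hw, hGe]
      rfl
    rw [h3]
    exact O.add_mem _ _ (O.add_mem _ _ O.one_mem hy)
      ((O.valuation_le_one_iff _).1 (hmO _).le)
  have hyw : y - (w : F) ∈ O := O.sub_mem hy hwO
  have h4 := hmin _ hyw
  have h5 : G.eval (y' - w) = m * (s.eval (y' - w) - s.eval y') := by
    have h6 : w = 1 + y' + m * s.eval y' := by rw [hw, hGe]
    rw [hGe]
    linear_combination (-1 : B) * h6
  obtain ⟨b, hb⟩ := Polynomial.sub_dvd_eval_sub (y' - w) y' s
  have h7 : G.eval (y' - w) = w * (m * (-b)) := by
    rw [h5, hb]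
    ring
  have h8 : (G.map B.subtype).eval y = (w : F) := by
    rw [hw, ← hcast]
  have h9 : (G.map B.subtype).eval (y - (w : F)) = (w : F) * ((m * (-b) : B) : F) := by
    have : (y - (w : F)) = ((y' - w : B) : F) := rfl
    rw [this, hcast, h7]
    rfl
  rw [h8, h9, map_mul] at h4
  have h10 : (w : F) = 0 := by
    by_contra h11
    have h12 : 0 < O.valuation (w : F) := zero_lt_iff.2 ((Valuation.ne_zero_iff _).2 h11)
    have h13 : O.valuation (w : F) * O.valuation ((m * (-b) : B) : F) < O.valuation (w : F) :=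
      mul_lt_of_lt_one_right h12 (hmO _)
    exact absurd h4 (not_le.2 h13)
  have h14 : w = 0 := Subtype.ext h10
  refine ⟨a₀ + e * y', ?_, ?_⟩
  · rw [IsRoot.def, hGh, ← hw, h14, mul_zero]
  · rw [add_sub_cancel_left]
    exact Ideal.mul_mem_right _ _ hem

end Pool.Agent.Helper86.XT
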